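import Pool.Agent.Q164.SdInt.Shell

/-!
# Barycentric subdivisions and certificates for shellability
-/

set_option autoImplicit false

namespace Pool.Agent.Q164.SdInt

open Finset

instance colexFintype {V : Type} [Fintype V] : Fintype (Colex (Finset V)) :=
  Fintype.ofEquiv (Finset V) toColex

open scoped Classical in
/-- The barycentric subdivision: the vertices are the nonempty faces of `L` (as elements of the type
of finite sets with the colexicographic linear order), the faces are the chains with respect to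
inclusion. -/
noncomputable def sd {V : Type} [Fintype V] [LinearOrder V] (L : SCx V) :
    SCx (Colex (Finset V)) where
  faces := Finset.univ.filter fun C =>
    (∀ s ∈ C, (ofColex s).Nonempty ∧ ofColex s ∈ L.faces) ∧
      ∀ s ∈ C, ∀ t ∈ C, ofColex s ⊆ ofColex t ∨ ofColex t ⊆ ofColex s
  empty_mem := by simp
  down := by
    intro F hF G hG
    rw [Finset.mem_filter] at hF ⊢
    exact ⟨Finset.mem_univ _, fun s hs => hF.2.1 s (hG hs),
      fun s hs t ht => hF.2.2 s (hG hs) t (hG ht)⟩

lemma mem_sd_faces {V : Type} [Fintype V] [LinearOrder V] (L : SCx V)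
    (C : Finset (Colex (Finset V))) : C ∈ (sd L).faces ↔
      (∀ s ∈ C, (ofColex s).Nonempty ∧ ofColex s ∈ L.faces) ∧
      ∀ s ∈ C, ∀ t ∈ C, ofColex s ⊆ ofColex t ∨ ofColex t ⊆ ofColex s := by
  unfold sd
  exact ((@Finset.mem_filter _ _ (_) _ _).trans ⟨fun h => h.2, fun h => ⟨Finset.mem_univ _, h⟩⟩)

/-- decoding of masks -/
def D (m : ℕ) : Finset (Fin 6) := univ.filter (fun i => m.testBit i)

/-- decoding of masks -/
def D' (m : ℕ) : Colex (Finset (Fin 6)) := toColex (D m)

/-- decoding of lists of masks -/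
def toF (l : List ℕ) : Finset (Colex (Finset (Fin 6))) := l.toFinset.image D'

lemma D_inj : ∀ m < 64, ∀ m' < 64, D m = D m' → m = m' := by
  decide +kernel

lemma D_sub : ∀ m < 64, ∀ m' < 64, (D m ⊆ D m' ↔ m &&& m' = m) := by
  decide +kernel

lemma D_surj : ∀ s : Finset (Fin 6), ∃ m < 64, D m = s := by
  decide +kernel

lemma D_ne : ∀ m < 64, ((D m).Nonempty ↔ m ≠ 0) := by
  decide +kernel

/-- membership in a list of numbers -/
def mem (x : ℕ) : List ℕ → Bool
  | [] => false
  | y :: l => Nat.beq x y || mem x l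

/-- all members satisfy the condition -/
def all (f : ℕ → Bool) : List ℕ → Bool
  | [] => true
  | y :: l => f y && all f l

/-- some list satisfies the condition -/
def anyL (f : List ℕ → Bool) : List (List ℕ) → Bool
  | [] => false
  | y :: l => f y || anyL f l

lemma mem_iff (x : ℕ) (l : List ℕ) : mem x l = true ↔ x ∈ l := by
  induction l with
  | nil => simp [mem]
  | cons y l ih =>
    unfold mem
    rw [Bool.or_eq_true, ih, List.mem_cons, Nat.beq_eq]

lemma all_iff (f : ℕ → Bool) (l : List ℕ) : all f l = true ↔ ∀ x ∈ l, f x = true := by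
  induction l with
  | nil => simp [all]
  | cons y l ih =>
    unfold all
    rw [Bool.and_eq_true, ih, List.forall_mem_cons]

lemma anyL_iff (f : List ℕ → Bool) (l : List (List ℕ)) : anyL f l = true ↔ ∃ x ∈ l, f x = true := by
  induction l with
  | nil => simp [anyL]
  | cons y l ih =>
    unfold anyL
    rw [Bool.or_eq_true, ih, List.exists_mem_cons_iff]

/-- the check of the shelling; `acc` is the list of the earlier facets -/
def chk : List (List ℕ) → List (List ℕ × List ℕ) → Bool
  | _, [] => true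
  | acc, p :: rest =>
    (!(anyL (fun G => all (fun x => mem x G) p.1) acc)) &&
      ((all (fun r => anyL (fun G => all (fun x => Nat.beq x r || mem x G) p.2) acc) p.1) &&
        chk (p.2 :: acc) rest)

lemma chk_spec (S : List (List ℕ × List ℕ)) : ∀ acc, chk acc S = true → ∀ i < S.length,
    (∀ G, (G ∈ acc ∨ ∃ j < i, G = (S.getD j ([], [])).2) → ∃ x ∈ (S.getD i ([], [])).1, x ∉ G) ∧
    (∀ r ∈ (S.getD i ([], [])).1, ∃ G, (G ∈ acc ∨ ∃ j < i, G = (S.getD j ([], [])).2) ∧
      ∀ x ∈ (S.getD i ([], [])).2, x ≠ r → x ∈ G) := by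
  induction S with
  | nil =>
    intro acc _ i hi
    exact absurd hi (Nat.not_lt_zero i)
  | cons p rest ih =>
    intro acc h i hi
    unfold chk at h
    rw [Bool.and_eq_true, Bool.and_eq_true, Bool.not_eq_true', all_iff] at h
    obtain ⟨h1, h2, h3⟩ := h
    rcases i with _ | i
    · constructor
      · rintro G (hG | ⟨j, hj, _⟩)
        · by_contra hcon
          push Not at hcon
          have : anyL (fun G => all (fun x => mem x G) p.1) acc = true := by
            rw [anyL_iff]
            refine ⟨G, hG, ?_⟩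
            rw [all_iff]
            intro x hx
            rw [mem_iff]
            exact hcon x hx
          rw [h1] at this
          exact absurd this (by decide)
        · exact absurd hj (Nat.not_lt_zero j)
      · intro r hr
        have h4 := h2 r hr
        rw [anyL_iff] at h4
        obtain ⟨G, hG, h5⟩ := h4
        refine ⟨G, Or.inl hG, ?_⟩
        intro x hx hxr
        rw [all_iff] at h5
        have h6 := h5 x hx
        rw [Bool.or_eq_true, Nat.beq_eq, mem_iff] at h6
        exact h6.resolve_left hxr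
    · have hi' : i < rest.length := by simpa using hi
      have key : ∀ G, (G ∈ acc ∨ ∃ j < i + 1, G = ((p :: rest).getD j ([], [])).2) ↔
          (G ∈ p.2 :: acc ∨ ∃ j < i, G = (rest.getD j ([], [])).2) := by
        intro G
        rw [List.mem_cons]
        constructor
        · rintro (hG | ⟨j, hj, hG⟩)
          · exact Or.inl (Or.inr hG)
          · rcases j with _ | j
            · left; left; simpa using hG
            · right; exact ⟨j, by omega, by simpa using hG⟩
        · rintro ((hG | hG) | ⟨j, hj, hG⟩)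
          · right; exact ⟨0, by omega, by simpa using hG⟩
          · exact Or.inl hG
          · right; exact ⟨j + 1, by omega, by simpa using hG⟩
      obtain ⟨a1, a2⟩ := ih (p.2 :: acc) h3 i hi'
      have e : (p :: rest).getD (i + 1) ([], []) = rest.getD i ([], []) := by simp
      rw [e]
      constructor
      · intro G hG
        exact a1 G ((key G).1 hG)
      · intro r hr
        obtain ⟨G, hG, h5⟩ := a2 r hr
        exact ⟨G, (key G).2 hG, h5⟩

/-- the flags of a list of triangles: `(v, e, t)` -/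
def flags (T : List ℕ) : List (List ℕ) :=
  T.flatMap fun t => ((List.range 64).filter fun e => Nat.beq (e &&& t) e && Nat.beq (D e).card 2).flatMap
    fun e => ((List.range 64).filter fun v => Nat.beq (v &&& e) v && Nat.beq (D v).card 1).map
      fun v => [v, e, t]

/-- the certificate -/
def Good (T : List ℕ) (S : List (List ℕ × List ℕ)) : Prop :=
  (∀ t ∈ T, t < 64 ∧ (D t).card = 3) ∧ T ≠ [] ∧ chk [] S = true ∧
  (∀ p ∈ S, (∀ x ∈ p.1, x ∈ p.2)) ∧ (∀ q ∈ S.map Prod.snd, q ∈ flags T) ∧
  (∀ q ∈ flags T, q ∈ S.map Prod.snd)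

instance (T : List ℕ) (S : List (List ℕ × List ℕ)) : Decidable (Good T S) := by
  unfold Good; infer_instance

lemma mem_toF (l : List ℕ) (hl : ∀ x ∈ l, x < 64) (m : ℕ) (hm : m < 64) : D' m ∈ toF l ↔ m ∈ l := by
  unfold toF
  rw [Finset.mem_image]
  constructor
  · rintro ⟨x, hx, hxm⟩
    rw [List.mem_toFinset] at hx
    have := D_inj x (hl x hx) m hm (by simpa [D'] using hxm)
    rwa [← this]
  · intro h
    exact ⟨m, by rwa [List.mem_toFinset], rfl⟩

lemma mem_flags (T : List ℕ) (q : List ℕ) : q ∈ flags T ↔ ∃ t ∈ T, ∃ e < 64, ∃ v < 64,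
    e &&& t = e ∧ (D e).card = 2 ∧ v &&& e = v ∧ (D v).card = 1 ∧ q = [v, e, t] := by
  unfold flags
  simp only [List.mem_flatMap, List.mem_filter, List.mem_range, Bool.and_eq_true, Nat.beq_eq,
    List.mem_map]
  constructor
  · rintro ⟨t, ht, e, ⟨he, h1, h2⟩, v, ⟨hv, h3, h4⟩, rfl⟩
    exact ⟨t, ht, e, he, v, hv, h1, h2, h3, h4, rfl⟩
  · rintro ⟨t, ht, e, he, v, hv, h1, h2, h3, h4, rfl⟩
    exact ⟨t, ht, e, ⟨he, h1, h2⟩, v, ⟨hv, h3, h4⟩, rfl⟩

/-- A chain of nonempty sets with union contained in a set with three elements extends to a flag. -/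
lemma exists_flag (G : Finset (Colex (Finset (Fin 6)))) (h1 : ∀ s ∈ G, (ofColex s).Nonempty)
    (h2 : ∀ s ∈ G, ∀ t ∈ G, ofColex s ⊆ ofColex t ∨ ofColex t ⊆ ofColex s)
    (M : Finset (Fin 6)) (hM : M.card = 3) (hG : ∀ s ∈ G, ofColex s ⊆ M) :
    ∃ e v : Finset (Fin 6), e ⊆ M ∧ e.card = 2 ∧ v ⊆ e ∧ v.card = 1 ∧
      ∀ s ∈ G, ofColex s = M ∨ ofColex s = e ∨ ofColex s = v := by
  classical
  -- the elements with at most two elements are contained in a set e
  have step : ∀ (m : ℕ) (X : Finset (Fin 6)), X.card = m + 1 → ∀ H : Finset (Colex (Finset (Fin 6))),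
      H ⊆ G → (∀ s ∈ H, ofColex s ⊆ X) → (∀ s ∈ H, (ofColex s).card ≤ m) →
      ∃ e : Finset (Fin 6), e ⊆ X ∧ e.card = m ∧ ∀ s ∈ H, ofColex s ⊆ e := by
    intro m X hX H hHG hHX hHm
    rcases H.eq_empty_or_nonempty with h0 | h0
    · obtain ⟨e, he, hec⟩ := Finset.exists_subset_card_eq (s := X) (n := m) (by omega)
      exact ⟨e, he, hec, by rw [h0]; intro s hs; exact absurd hs (Finset.notMem_empty s)⟩
    · obtain ⟨x, hx, hmax⟩ := Finset.exists_max_image H (fun s => (ofColex s).card) h0
      obtain ⟨e, he1, he2, he3⟩ := Finset.exists_subsuperset_card_eq (hHX x hx) (hHm x hx)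
        (by omega : m ≤ X.card)
      refine ⟨e, he2, he3, ?_⟩
      intro s hs
      rcases h2 s (hHG hs) x (hHG hx) with h3 | h3
      · exact h3.trans he1
      · have := Finset.eq_of_subset_of_card_le h3 (hmax s hs)
        rw [← this]
        exact he1
  obtain ⟨e, he1, he2, he3⟩ := step 2 M hM (G.filter fun s => (ofColex s).card ≤ 2)
    (Finset.filter_subset _ _) (fun s hs => hG s (Finset.mem_filter.1 hs).1)
    (fun s hs => (Finset.mem_filter.1 hs).2)
  obtain ⟨v, hv1, hv2, hv3⟩ := step 1 e he2 (G.filter fun s => (ofColex s).card ≤ 1)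
    (Finset.filter_subset _ _) (fun s hs => he3 s (by
      rw [Finset.mem_filter] at hs ⊢
      exact ⟨hs.1, by omega⟩))
    (fun s hs => (Finset.mem_filter.1 hs).2)
  refine ⟨e, v, he1, he2, hv1, hv2, ?_⟩
  intro s hs
  have hc0 : 0 < (ofColex s).card := Finset.card_pos.2 (h1 s hs)
  have hc3 : (ofColex s).card ≤ 3 := by
    rw [← hM]
    exact Finset.card_le_card (hG s hs)
  rcases (by omega : (ofColex s).card = 3 ∨ (ofColex s).card = 2 ∨ (ofColex s).card = 1) with h | h | h
  · left
    exact Finset.eq_of_subset_of_card_le (hG s hs) (by omega)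
  · right; left
    exact Finset.eq_of_subset_of_card_le (he3 s (Finset.mem_filter.2 ⟨hs, by omega⟩)) (by omega)
  · right; right
    exact Finset.eq_of_subset_of_card_le (hv3 s (Finset.mem_filter.2 ⟨hs, by omega⟩)) (by omega)

lemma Good.flag_of {T : List ℕ} {S : List (List ℕ × List ℕ)} (h : Good T S) (p : List ℕ × List ℕ)
    (hp : p ∈ S) : ∃ t ∈ T, ∃ e < 64, ∃ v < 64,
    e &&& t = e ∧ (D e).card = 2 ∧ v &&& e = v ∧ (D v).card = 1 ∧ p.2 = [v, e, t] := by
  obtain ⟨_, _, _, _, g5, _⟩ := h
  exact (mem_flags T p.2).1 (g5 p.2 (List.mem_map.2 ⟨p, hp, rfl⟩))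

lemma Good.nodup {T : List ℕ} {S : List (List ℕ × List ℕ)} (h : Good T S) (p : List ℕ × List ℕ)
    (hp : p ∈ S) : p.2.Nodup ∧ p.2.length = 3 ∧ ∀ x ∈ p.2, x < 64 := by
  obtain ⟨t, ht, e, he, v, hv, h1, h2, h3, h4, h5⟩ := h.flag_of p hp
  have ht1 := h.1 t ht
  rw [h5]
  have a1 : v ≠ e := by rintro rfl; omega
  have a2 : v ≠ t := by rintro rfl; omega
  have a3 : e ≠ t := by rintro rfl; omega
  refine ⟨by simp [a1, a2, a3], by simp, ?_⟩
  intro x hx
  simp only [List.mem_cons, List.not_mem_nil, or_false] at hx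
  rcases hx with rfl | rfl | rfl
  · exact hv
  · exact he
  · exact ht1.1

lemma Good.mem_sd {T : List ℕ} {S : List (List ℕ × List ℕ)} (h : Good T S) (K : SCx (Fin 6))
    (hK : ∀ s, s ∈ K.faces ↔ ∃ t ∈ T, s ⊆ D t) (G : Finset (Colex (Finset (Fin 6)))) :
    G ∈ (sd K).faces ↔ ∃ i < S.length, G ⊆ toF (S.getD i ([], [])).2 := by
  classical
  have hflag := h.flag_of
  have hnd := h.nodup
  obtain ⟨g0, g1, g2, g3, g4, g5⟩ := h
  rw [mem_sd_faces]
  constructor
  · rintro ⟨h1, h2⟩
    have ht : ∃ t ∈ T, ∀ s ∈ G, ofColex s ⊆ D t := by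
      rcases G.eq_empty_or_nonempty with h0 | h0
      · obtain ⟨t, ht⟩ := List.exists_mem_of_ne_nil T g1
        exact ⟨t, ht, by rw [h0]; intro s hs; exact absurd hs (Finset.notMem_empty s)⟩
      · obtain ⟨x, hx, hmax⟩ := Finset.exists_max_image G (fun s => (ofColex s).card) h0
        obtain ⟨t, ht, hst⟩ := (hK _).1 (h1 x hx).2
        refine ⟨t, ht, ?_⟩
        intro s hs
        rcases h2 s hs x hx with h3 | h3
        · exact h3.trans hst
        · have := Finset.eq_of_subset_of_card_le h3 (hmax s hs)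
          rw [← this]
          exact hst
    obtain ⟨t, ht, htG⟩ := ht
    obtain ⟨e, v, he1, he2, hv1, hv2, hall⟩ := exists_flag G (fun s hs => (h1 s hs).1) h2 (D t)
      (g0 t ht).2 htG
    obtain ⟨me, hme, rfl⟩ := D_surj e
    obtain ⟨mv, hmv, rfl⟩ := D_surj v
    have hfl : [mv, me, t] ∈ flags T := by
      rw [mem_flags]
      exact ⟨t, ht, me, hme, mv, hmv, (D_sub me hme t (g0 t ht).1).1 he1, he2,
        (D_sub mv hmv me hme).1 hv1, hv2, rfl⟩
    obtain ⟨p, hp, hp2⟩ := List.mem_map.1 (g5 _ hfl)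
    obtain ⟨i, hi, hpi⟩ := List.getElem_of_mem hp
    refine ⟨i, hi, ?_⟩
    rw [List.getD_eq_getElem _ _ hi, hpi, hp2]
    intro s hs
    unfold toF
    rw [Finset.mem_image]
    rcases hall s hs with h3 | h3 | h3
    · exact ⟨t, by simp, by unfold D'; rw [← h3]; simp⟩
    · exact ⟨me, by simp, by unfold D'; rw [← h3]; simp⟩
    · exact ⟨mv, by simp, by unfold D'; rw [← h3]; simp⟩
  · rintro ⟨i, hi, hG⟩
    have hp : S.getD i ([], []) ∈ S := by
      rw [List.getD_eq_getElem _ _ hi]
      exact List.getElem_mem _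
    obtain ⟨t, ht, e, he, v, hv, b1, b2, b3, b4, b5⟩ := hflag _ hp
    rw [b5] at hG
    have c1 : D e ⊆ D t := (D_sub e he t (g0 t ht).1).2 b1
    have c2 : D v ⊆ D e := (D_sub v hv e he).2 b3
    have key : ∀ s ∈ G, ofColex s = D v ∨ ofColex s = D e ∨ ofColex s = D t := by
      intro s hs
      have := hG hs
      unfold toF at this
      rw [Finset.mem_image] at this
      obtain ⟨m, hm, rfl⟩ := this
      rw [List.mem_toFinset] at hm
      simp only [List.mem_cons, List.not_mem_nil, or_false] at hm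
      have e1 : ofColex (D' m) = D m := by simp [D']
      rw [e1]
      rcases hm with rfl | rfl | rfl
      · exact Or.inl rfl
      · exact Or.inr (Or.inl rfl)
      · exact Or.inr (Or.inr rfl)
    refine ⟨?_, ?_⟩
    · intro s hs
      rw [hK]
      rcases key s hs with h3 | h3 | h3
      · rw [h3]
        exact ⟨Finset.card_pos.1 (by omega), t, ht, c2.trans c1⟩
      · rw [h3]
        exact ⟨Finset.card_pos.1 (by omega), t, ht, c1⟩
      · rw [h3]
        exact ⟨Finset.card_pos.1 (by rw [(g0 t ht).2]; norm_num), t, ht, subset_rfl⟩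
    · intro s hs s' hs'
      rcases key s hs with h3 | h3 | h3 <;> rcases key s' hs' with h4 | h4 | h4 <;> rw [h3, h4]
      · exact Or.inl subset_rfl
      · exact Or.inl c2
      · exact Or.inl (c2.trans c1)
      · exact Or.inr c2
      · exact Or.inl subset_rfl
      · exact Or.inl c1
      · exact Or.inr (c2.trans c1)
      · exact Or.inr c1
      · exact Or.inl subset_rfl

lemma card_toF (l : List ℕ) (hl : ∀ x ∈ l, x < 64) (hn : l.Nodup) : (toF l).card = l.length := by
  unfold toF
  rw [Finset.card_image_of_injOn, List.toFinset_card_of_nodup hn]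
  intro x hx y hy hxy
  rw [Finset.mem_coe, List.mem_toFinset] at hx hy
  exact D_inj x (hl x hx) y (hl y hy) (by simpa [D'] using hxy)

lemma Good.cm {T : List ℕ} {S : List (List ℕ × List ℕ)} (h : Good T S) (K : SCx (Fin 6))
    (hK : ∀ s, s ∈ K.faces ↔ ∃ t ∈ T, s ⊆ D t) (k : Type) [Field k] : IsCM k (sd K) := by
  classical
  have h4 := h.mem_sd K hK
  have hnd := h.nodup
  obtain ⟨g0, g1, g2, g3, g4, g5⟩ := h
  have hspec := chk_spec S [] g2
  have hp : ∀ i < S.length, S.getD i ([], []) ∈ S := by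
    intro i hi
    rw [List.getD_eq_getElem _ _ hi]
    exact List.getElem_mem _
  have hlt : ∀ i < S.length, ∀ x ∈ (S.getD i ([], [])).2, x < 64 :=
    fun i hi x hx => (hnd _ (hp i hi)).2.2 x hx
  have hlt1 : ∀ i < S.length, ∀ x ∈ (S.getD i ([], [])).1, x < 64 :=
    fun i hi x hx => hlt i hi x (g3 _ (hp i hi) x hx)
  apply cm_of_shelling (sd K) 3 (fun i => toF (S.getD i ([], [])).1)
    (fun i => toF (S.getD i ([], [])).2) S.length
  · intro i hi
    unfold toF
    apply Finset.image_subset_image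
    intro x hx
    rw [List.mem_toFinset] at hx ⊢
    exact g3 _ (hp i hi) x hx
  · intro i hi
    rw [card_toF _ (hlt i hi) (hnd _ (hp i hi)).1, (hnd _ (hp i hi)).2.1]
  · intro i hi j hj hsub
    obtain ⟨x, hx, hxn⟩ := (hspec i hi).1 _ (Or.inr ⟨j, hj, rfl⟩)
    apply hxn
    rw [← mem_toF _ (hlt j (by omega)) x (hlt1 i hi x hx)]
    exact hsub ((mem_toF _ (hlt1 i hi) x (hlt1 i hi x hx)).2 hx)
  · intro i hi r hr
    unfold toF at hr
    rw [Finset.mem_image] at hr
    obtain ⟨m, hm, rfl⟩ := hr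
    rw [List.mem_toFinset] at hm
    obtain ⟨G, hG, hx⟩ := (hspec i hi).2 m hm
    rcases hG with hG | ⟨j, hj, rfl⟩
    · exact absurd hG (List.not_mem_nil)
    refine ⟨j, hj, ?_⟩
    intro w hw
    obtain ⟨hw1, hw2⟩ := (@Finset.mem_erase _ (_) _ _ _).1 hw
    unfold toF at hw2
    rw [Finset.mem_image] at hw2
    obtain ⟨m', hm', rfl⟩ := hw2
    rw [List.mem_toFinset] at hm'
    rw [mem_toF _ (hlt j (by omega)) m' (hlt i hi m' hm')]
    exact hx m' hm' fun h0 => hw1 (by rw [h0])
  · exact h4

end Pool.Agent.Q164.SdInt
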