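import Pool.Agent.Q164.SdInt.Cert

/-!
# Data
-/

set_option autoImplicit false

namespace Pool.Agent.Q164.SdInt

/-- the facets of the complex, as masks -/
def T0 : List ℕ := [25, 21, 14, 22, 37, 44, 41, 42, 56, 50]

/-- shelling -/
def S0 : List (List ℕ × List ℕ) :=
  [([], [1, 9, 25]),
  ([17], [1, 17, 25]),
  ([8], [8, 9, 25]),
  ([24], [8, 24, 25]),
  ([16], [16, 17, 25]),
  ([16, 24], [16, 24, 25]),
  ([21], [1, 17, 21]),
  ([5], [1, 5, 21]),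
  ([4], [4, 5, 21]),
  ([20], [4, 20, 21]),
  ([16, 21], [16, 17, 21]),
  ([16, 20], [16, 20, 21]),
  ([22], [4, 20, 22]),
  ([6], [4, 6, 22]),
  ([2], [2, 6, 22]),
  ([18], [2, 18, 22]),
  ([16, 22], [16, 20, 22]),
  ([16, 18], [16, 18, 22]),
  ([37], [1, 5, 37]),
  ([33], [1, 33, 37]),
  ([4, 37], [4, 5, 37]),
  ([36], [4, 36, 37]),
  ([32], [32, 33, 37]),
  ([32, 36], [32, 36, 37]),
  ([41], [1, 9, 41]),
  ([33, 41], [1, 33, 41]),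
  ([8, 41], [8, 9, 41]),
  ([40], [8, 40, 41]),
  ([32, 41], [32, 33, 41]),
  ([32, 40], [32, 40, 41]),
  ([44], [4, 36, 44]),
  ([12], [4, 12, 44]),
  ([32, 44], [32, 36, 44]),
  ([40, 44], [32, 40, 44]),
  ([8, 44], [8, 40, 44]),
  ([8, 12], [8, 12, 44]),
  ([14], [2, 6, 14]),
  ([10], [2, 10, 14]),
  ([4, 14], [4, 6, 14]),
  ([12, 14], [4, 12, 14]),
  ([8, 14], [8, 12, 14]),
  ([8, 10], [8, 10, 14]),
  ([42], [2, 10, 42]),
  ([34], [2, 34, 42]),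
  ([8, 42], [8, 10, 42]),
  ([40, 42], [8, 40, 42]),
  ([32, 42], [32, 40, 42]),
  ([32, 34], [32, 34, 42]),
  ([56], [8, 24, 56]),
  ([40, 56], [8, 40, 56]),
  ([16, 56], [16, 24, 56]),
  ([48], [16, 48, 56]),
  ([32, 56], [32, 40, 56]),
  ([32, 48], [32, 48, 56]),
  ([50], [2, 18, 50]),
  ([34, 50], [2, 34, 50]),
  ([16, 50], [16, 18, 50]),
  ([48, 50], [16, 48, 50]),
  ([32, 50], [32, 34, 50]),
  ([32, 48, 50], [32, 48, 50])]

/-- shelling -/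
def S1 : List (List ℕ × List ℕ) :=
  [([], [1, 5, 21]),
  ([17], [1, 17, 21]),
  ([4], [4, 5, 21]),
  ([20], [4, 20, 21]),
  ([16], [16, 17, 21]),
  ([16, 20], [16, 20, 21]),
  ([22], [4, 20, 22]),
  ([6], [4, 6, 22]),
  ([2], [2, 6, 22]),
  ([18], [2, 18, 22]),
  ([16, 22], [16, 20, 22]),
  ([16, 18], [16, 18, 22]),
  ([14], [2, 6, 14]),
  ([10], [2, 10, 14]),
  ([4, 14], [4, 6, 14]),
  ([12], [4, 12, 14]),
  ([8], [8, 10, 14]),
  ([8, 12], [8, 12, 14]),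
  ([37], [1, 5, 37]),
  ([33], [1, 33, 37]),
  ([4, 37], [4, 5, 37]),
  ([36], [4, 36, 37]),
  ([32], [32, 33, 37]),
  ([32, 36], [32, 36, 37]),
  ([44], [4, 12, 44]),
  ([36, 44], [4, 36, 44]),
  ([8, 44], [8, 12, 44]),
  ([40], [8, 40, 44]),
  ([32, 44], [32, 36, 44]),
  ([32, 40], [32, 40, 44]),
  ([41], [1, 33, 41]),
  ([9], [1, 9, 41]),
  ([32, 41], [32, 33, 41]),
  ([40, 41], [32, 40, 41]),
  ([8, 41], [8, 40, 41]),
  ([8, 9], [8, 9, 41]),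
  ([42], [2, 10, 42]),
  ([34], [2, 34, 42]),
  ([8, 42], [8, 10, 42]),
  ([40, 42], [8, 40, 42]),
  ([32, 42], [32, 40, 42]),
  ([32, 34], [32, 34, 42]),
  ([50], [2, 18, 50]),
  ([34, 50], [2, 34, 50]),
  ([16, 50], [16, 18, 50]),
  ([48], [16, 48, 50]),
  ([32, 50], [32, 34, 50]),
  ([32, 48], [32, 48, 50]),
  ([56], [8, 40, 56]),
  ([24], [8, 24, 56]),
  ([32, 56], [32, 40, 56]),
  ([48, 56], [32, 48, 56]),
  ([16, 56], [16, 48, 56]),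
  ([16, 24], [16, 24, 56])]

/-- shelling -/
def S2 : List (List ℕ × List ℕ) :=
  [([], [1, 9, 25]),
  ([17], [1, 17, 25]),
  ([8], [8, 9, 25]),
  ([24], [8, 24, 25]),
  ([16], [16, 17, 25]),
  ([16, 24], [16, 24, 25]),
  ([41], [1, 9, 41]),
  ([33], [1, 33, 41]),
  ([8, 41], [8, 9, 41]),
  ([40], [8, 40, 41]),
  ([32], [32, 33, 41]),
  ([32, 40], [32, 40, 41]),
  ([37], [1, 33, 37]),
  ([5], [1, 5, 37]),
  ([4], [4, 5, 37]),
  ([36], [4, 36, 37]),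
  ([32, 37], [32, 33, 37]),
  ([32, 36], [32, 36, 37]),
  ([44], [4, 36, 44]),
  ([12], [4, 12, 44]),
  ([32, 44], [32, 36, 44]),
  ([40, 44], [32, 40, 44]),
  ([8, 44], [8, 40, 44]),
  ([8, 12], [8, 12, 44]),
  ([14], [4, 12, 14]),
  ([6], [4, 6, 14]),
  ([2], [2, 6, 14]),
  ([10], [2, 10, 14]),
  ([8, 14], [8, 12, 14]),
  ([8, 10], [8, 10, 14]),
  ([42], [2, 10, 42]),
  ([34], [2, 34, 42]),
  ([8, 42], [8, 10, 42]),
  ([40, 42], [8, 40, 42]),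
  ([32, 42], [32, 40, 42]),
  ([32, 34], [32, 34, 42]),
  ([56], [8, 24, 56]),
  ([40, 56], [8, 40, 56]),
  ([16, 56], [16, 24, 56]),
  ([48], [16, 48, 56]),
  ([32, 56], [32, 40, 56]),
  ([32, 48], [32, 48, 56]),
  ([50], [2, 34, 50]),
  ([18], [2, 18, 50]),
  ([32, 50], [32, 34, 50]),
  ([48, 50], [32, 48, 50]),
  ([16, 50], [16, 48, 50]),
  ([16, 18], [16, 18, 50]),
  ([22], [2, 6, 22]),
  ([18, 22], [2, 18, 22]),
  ([4, 22], [4, 6, 22]),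
  ([20], [4, 20, 22]),
  ([16, 22], [16, 18, 22]),
  ([16, 20], [16, 20, 22])]

/-- shelling -/
def S3 : List (List ℕ × List ℕ) :=
  [([], [1, 9, 25]),
  ([17], [1, 17, 25]),
  ([8], [8, 9, 25]),
  ([24], [8, 24, 25]),
  ([16], [16, 17, 25]),
  ([16, 24], [16, 24, 25]),
  ([21], [1, 17, 21]),
  ([5], [1, 5, 21]),
  ([4], [4, 5, 21]),
  ([20], [4, 20, 21]),
  ([16, 21], [16, 17, 21]),
  ([16, 20], [16, 20, 21]),
  ([22], [4, 20, 22]),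
  ([6], [4, 6, 22]),
  ([2], [2, 6, 22]),
  ([18], [2, 18, 22]),
  ([16, 22], [16, 20, 22]),
  ([16, 18], [16, 18, 22]),
  ([37], [1, 5, 37]),
  ([33], [1, 33, 37]),
  ([4, 37], [4, 5, 37]),
  ([36], [4, 36, 37]),
  ([32], [32, 33, 37]),
  ([32, 36], [32, 36, 37]),
  ([41], [1, 9, 41]),
  ([33, 41], [1, 33, 41]),
  ([8, 41], [8, 9, 41]),
  ([40], [8, 40, 41]),
  ([32, 41], [32, 33, 41]),
  ([32, 40], [32, 40, 41]),
  ([44], [4, 36, 44]),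
  ([12], [4, 12, 44]),
  ([32, 44], [32, 36, 44]),
  ([40, 44], [32, 40, 44]),
  ([8, 44], [8, 40, 44]),
  ([8, 12], [8, 12, 44]),
  ([56], [8, 24, 56]),
  ([40, 56], [8, 40, 56]),
  ([16, 56], [16, 24, 56]),
  ([48], [16, 48, 56]),
  ([32, 56], [32, 40, 56]),
  ([32, 48], [32, 48, 56]),
  ([50], [2, 18, 50]),
  ([34], [2, 34, 50]),
  ([16, 50], [16, 18, 50]),
  ([48, 50], [16, 48, 50]),
  ([32, 50], [32, 48, 50]),
  ([32, 34], [32, 34, 50]),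
  ([42], [2, 34, 42]),
  ([10], [2, 10, 42]),
  ([32, 42], [32, 34, 42]),
  ([40, 42], [32, 40, 42]),
  ([8, 42], [8, 40, 42]),
  ([8, 10], [8, 10, 42])]

/-- shelling -/
def S4 : List (List ℕ × List ℕ) :=
  [([], [1, 9, 25]),
  ([17], [1, 17, 25]),
  ([8], [8, 9, 25]),
  ([24], [8, 24, 25]),
  ([16], [16, 17, 25]),
  ([16, 24], [16, 24, 25]),
  ([21], [1, 17, 21]),
  ([5], [1, 5, 21]),
  ([4], [4, 5, 21]),
  ([20], [4, 20, 21]),
  ([16, 21], [16, 17, 21]),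
  ([16, 20], [16, 20, 21]),
  ([37], [1, 5, 37]),
  ([33], [1, 33, 37]),
  ([4, 37], [4, 5, 37]),
  ([36], [4, 36, 37]),
  ([32], [32, 33, 37]),
  ([32, 36], [32, 36, 37]),
  ([41], [1, 9, 41]),
  ([33, 41], [1, 33, 41]),
  ([8, 41], [8, 9, 41]),
  ([40], [8, 40, 41]),
  ([32, 41], [32, 33, 41]),
  ([32, 40], [32, 40, 41]),
  ([44], [4, 36, 44]),
  ([12], [4, 12, 44]),
  ([32, 44], [32, 36, 44]),
  ([40, 44], [32, 40, 44]),
  ([8, 44], [8, 40, 44]),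
  ([8, 12], [8, 12, 44]),
  ([14], [4, 12, 14]),
  ([6], [4, 6, 14]),
  ([2], [2, 6, 14]),
  ([10], [2, 10, 14]),
  ([8, 14], [8, 12, 14]),
  ([8, 10], [8, 10, 14]),
  ([42], [2, 10, 42]),
  ([34], [2, 34, 42]),
  ([8, 42], [8, 10, 42]),
  ([40, 42], [8, 40, 42]),
  ([32, 42], [32, 40, 42]),
  ([32, 34], [32, 34, 42]),
  ([56], [8, 24, 56]),
  ([40, 56], [8, 40, 56]),
  ([16, 56], [16, 24, 56]),
  ([48], [16, 48, 56]),
  ([32, 56], [32, 40, 56]),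
  ([32, 48], [32, 48, 56]),
  ([50], [2, 34, 50]),
  ([18], [2, 18, 50]),
  ([32, 50], [32, 34, 50]),
  ([48, 50], [32, 48, 50]),
  ([16, 50], [16, 48, 50]),
  ([16, 18], [16, 18, 50])]

/-- shelling -/
def S5 : List (List ℕ × List ℕ) :=
  [([], [1, 9, 25]),
  ([17], [1, 17, 25]),
  ([8], [8, 9, 25]),
  ([24], [8, 24, 25]),
  ([16], [16, 17, 25]),
  ([16, 24], [16, 24, 25]),
  ([21], [1, 17, 21]),
  ([5], [1, 5, 21]),
  ([4], [4, 5, 21]),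
  ([20], [4, 20, 21]),
  ([16, 21], [16, 17, 21]),
  ([16, 20], [16, 20, 21]),
  ([22], [4, 20, 22]),
  ([6], [4, 6, 22]),
  ([2], [2, 6, 22]),
  ([18], [2, 18, 22]),
  ([16, 22], [16, 20, 22]),
  ([16, 18], [16, 18, 22]),
  ([41], [1, 9, 41]),
  ([33], [1, 33, 41]),
  ([8, 41], [8, 9, 41]),
  ([40], [8, 40, 41]),
  ([32], [32, 33, 41]),
  ([32, 40], [32, 40, 41]),
  ([56], [8, 24, 56]),
  ([40, 56], [8, 40, 56]),
  ([16, 56], [16, 24, 56]),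
  ([48], [16, 48, 56]),
  ([32, 56], [32, 40, 56]),
  ([32, 48], [32, 48, 56]),
  ([50], [2, 18, 50]),
  ([34], [2, 34, 50]),
  ([16, 50], [16, 18, 50]),
  ([48, 50], [16, 48, 50]),
  ([32, 50], [32, 48, 50]),
  ([32, 34], [32, 34, 50]),
  ([42], [2, 34, 42]),
  ([10], [2, 10, 42]),
  ([32, 42], [32, 34, 42]),
  ([40, 42], [32, 40, 42]),
  ([8, 42], [8, 40, 42]),
  ([8, 10], [8, 10, 42]),
  ([14], [2, 6, 14]),
  ([10, 14], [2, 10, 14]),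
  ([4, 14], [4, 6, 14]),
  ([12], [4, 12, 14]),
  ([8, 14], [8, 10, 14]),
  ([8, 12], [8, 12, 14]),
  ([44], [4, 12, 44]),
  ([36], [4, 36, 44]),
  ([8, 44], [8, 12, 44]),
  ([40, 44], [8, 40, 44]),
  ([32, 44], [32, 40, 44]),
  ([32, 36], [32, 36, 44])]

/-- shelling -/
def S6 : List (List ℕ × List ℕ) :=
  [([], [1, 9, 25]),
  ([17], [1, 17, 25]),
  ([8], [8, 9, 25]),
  ([24], [8, 24, 25]),
  ([16], [16, 17, 25]),
  ([16, 24], [16, 24, 25]),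
  ([21], [1, 17, 21]),
  ([5], [1, 5, 21]),
  ([4], [4, 5, 21]),
  ([20], [4, 20, 21]),
  ([16, 21], [16, 17, 21]),
  ([16, 20], [16, 20, 21]),
  ([22], [4, 20, 22]),
  ([6], [4, 6, 22]),
  ([2], [2, 6, 22]),
  ([18], [2, 18, 22]),
  ([16, 22], [16, 20, 22]),
  ([16, 18], [16, 18, 22]),
  ([37], [1, 5, 37]),
  ([33], [1, 33, 37]),
  ([4, 37], [4, 5, 37]),
  ([36], [4, 36, 37]),
  ([32], [32, 33, 37]),
  ([32, 36], [32, 36, 37]),
  ([41], [1, 9, 41]),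
  ([33, 41], [1, 33, 41]),
  ([8, 41], [8, 9, 41]),
  ([40], [8, 40, 41]),
  ([32, 41], [32, 33, 41]),
  ([32, 40], [32, 40, 41]),
  ([56], [8, 24, 56]),
  ([40, 56], [8, 40, 56]),
  ([16, 56], [16, 24, 56]),
  ([48], [16, 48, 56]),
  ([32, 56], [32, 40, 56]),
  ([32, 48], [32, 48, 56]),
  ([50], [2, 18, 50]),
  ([34], [2, 34, 50]),
  ([16, 50], [16, 18, 50]),
  ([48, 50], [16, 48, 50]),
  ([32, 50], [32, 48, 50]),
  ([32, 34], [32, 34, 50]),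
  ([42], [2, 34, 42]),
  ([10], [2, 10, 42]),
  ([32, 42], [32, 34, 42]),
  ([40, 42], [32, 40, 42]),
  ([8, 42], [8, 40, 42]),
  ([8, 10], [8, 10, 42]),
  ([14], [2, 6, 14]),
  ([10, 14], [2, 10, 14]),
  ([4, 14], [4, 6, 14]),
  ([12], [4, 12, 14]),
  ([8, 14], [8, 10, 14]),
  ([8, 12], [8, 12, 14])]

/-- shelling -/
def S7 : List (List ℕ × List ℕ) :=
  [([], [1, 9, 25]),
  ([17], [1, 17, 25]),
  ([8], [8, 9, 25]),
  ([24], [8, 24, 25]),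
  ([16], [16, 17, 25]),
  ([16, 24], [16, 24, 25]),
  ([21], [1, 17, 21]),
  ([5], [1, 5, 21]),
  ([4], [4, 5, 21]),
  ([20], [4, 20, 21]),
  ([16, 21], [16, 17, 21]),
  ([16, 20], [16, 20, 21]),
  ([22], [4, 20, 22]),
  ([6], [4, 6, 22]),
  ([2], [2, 6, 22]),
  ([18], [2, 18, 22]),
  ([16, 22], [16, 20, 22]),
  ([16, 18], [16, 18, 22]),
  ([56], [8, 24, 56]),
  ([40], [8, 40, 56]),
  ([16, 56], [16, 24, 56]),
  ([48], [16, 48, 56]),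
  ([32], [32, 40, 56]),
  ([32, 48], [32, 48, 56]),
  ([50], [2, 18, 50]),
  ([34], [2, 34, 50]),
  ([16, 50], [16, 18, 50]),
  ([48, 50], [16, 48, 50]),
  ([32, 50], [32, 48, 50]),
  ([32, 34], [32, 34, 50]),
  ([42], [2, 34, 42]),
  ([10], [2, 10, 42]),
  ([32, 42], [32, 34, 42]),
  ([40, 42], [32, 40, 42]),
  ([8, 42], [8, 40, 42]),
  ([8, 10], [8, 10, 42]),
  ([14], [2, 6, 14]),
  ([10, 14], [2, 10, 14]),
  ([4, 14], [4, 6, 14]),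
  ([12], [4, 12, 14]),
  ([8, 14], [8, 10, 14]),
  ([8, 12], [8, 12, 14]),
  ([44], [4, 12, 44]),
  ([36], [4, 36, 44]),
  ([8, 44], [8, 12, 44]),
  ([40, 44], [8, 40, 44]),
  ([32, 44], [32, 40, 44]),
  ([32, 36], [32, 36, 44]),
  ([37], [1, 5, 37]),
  ([33], [1, 33, 37]),
  ([4, 37], [4, 5, 37]),
  ([36, 37], [4, 36, 37]),
  ([32, 37], [32, 36, 37]),
  ([32, 33], [32, 33, 37])]

/-- shelling -/
def S8 : List (List ℕ × List ℕ) :=
  [([], [1, 9, 25]),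
  ([17], [1, 17, 25]),
  ([8], [8, 9, 25]),
  ([24], [8, 24, 25]),
  ([16], [16, 17, 25]),
  ([16, 24], [16, 24, 25]),
  ([21], [1, 17, 21]),
  ([5], [1, 5, 21]),
  ([4], [4, 5, 21]),
  ([20], [4, 20, 21]),
  ([16, 21], [16, 17, 21]),
  ([16, 20], [16, 20, 21]),
  ([22], [4, 20, 22]),
  ([6], [4, 6, 22]),
  ([2], [2, 6, 22]),
  ([18], [2, 18, 22]),
  ([16, 22], [16, 20, 22]),
  ([16, 18], [16, 18, 22]),
  ([37], [1, 5, 37]),
  ([33], [1, 33, 37]),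
  ([4, 37], [4, 5, 37]),
  ([36], [4, 36, 37]),
  ([32], [32, 33, 37]),
  ([32, 36], [32, 36, 37]),
  ([41], [1, 9, 41]),
  ([33, 41], [1, 33, 41]),
  ([8, 41], [8, 9, 41]),
  ([40], [8, 40, 41]),
  ([32, 41], [32, 33, 41]),
  ([32, 40], [32, 40, 41]),
  ([44], [4, 36, 44]),
  ([12], [4, 12, 44]),
  ([32, 44], [32, 36, 44]),
  ([40, 44], [32, 40, 44]),
  ([8, 44], [8, 40, 44]),
  ([8, 12], [8, 12, 44]),
  ([14], [2, 6, 14]),
  ([10], [2, 10, 14]),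
  ([4, 14], [4, 6, 14]),
  ([12, 14], [4, 12, 14]),
  ([8, 14], [8, 12, 14]),
  ([8, 10], [8, 10, 14]),
  ([56], [8, 24, 56]),
  ([40, 56], [8, 40, 56]),
  ([16, 56], [16, 24, 56]),
  ([48], [16, 48, 56]),
  ([32, 56], [32, 40, 56]),
  ([32, 48], [32, 48, 56]),
  ([50], [2, 18, 50]),
  ([34], [2, 34, 50]),
  ([16, 50], [16, 18, 50]),
  ([48, 50], [16, 48, 50]),
  ([32, 50], [32, 48, 50]),
  ([32, 34], [32, 34, 50])]

/-- shelling -/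
def S9 : List (List ℕ × List ℕ) :=
  [([], [1, 9, 25]),
  ([17], [1, 17, 25]),
  ([8], [8, 9, 25]),
  ([24], [8, 24, 25]),
  ([16], [16, 17, 25]),
  ([16, 24], [16, 24, 25]),
  ([21], [1, 17, 21]),
  ([5], [1, 5, 21]),
  ([4], [4, 5, 21]),
  ([20], [4, 20, 21]),
  ([16, 21], [16, 17, 21]),
  ([16, 20], [16, 20, 21]),
  ([22], [4, 20, 22]),
  ([6], [4, 6, 22]),
  ([2], [2, 6, 22]),
  ([18], [2, 18, 22]),
  ([16, 22], [16, 20, 22]),
  ([16, 18], [16, 18, 22]),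
  ([37], [1, 5, 37]),
  ([33], [1, 33, 37]),
  ([4, 37], [4, 5, 37]),
  ([36], [4, 36, 37]),
  ([32], [32, 33, 37]),
  ([32, 36], [32, 36, 37]),
  ([41], [1, 9, 41]),
  ([33, 41], [1, 33, 41]),
  ([8, 41], [8, 9, 41]),
  ([40], [8, 40, 41]),
  ([32, 41], [32, 33, 41]),
  ([32, 40], [32, 40, 41]),
  ([44], [4, 36, 44]),
  ([12], [4, 12, 44]),
  ([32, 44], [32, 36, 44]),
  ([40, 44], [32, 40, 44]),
  ([8, 44], [8, 40, 44]),
  ([8, 12], [8, 12, 44]),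
  ([14], [2, 6, 14]),
  ([10], [2, 10, 14]),
  ([4, 14], [4, 6, 14]),
  ([12, 14], [4, 12, 14]),
  ([8, 14], [8, 12, 14]),
  ([8, 10], [8, 10, 14]),
  ([42], [2, 10, 42]),
  ([34], [2, 34, 42]),
  ([8, 42], [8, 10, 42]),
  ([40, 42], [8, 40, 42]),
  ([32, 42], [32, 40, 42]),
  ([32, 34], [32, 34, 42]),
  ([50], [2, 18, 50]),
  ([34, 50], [2, 34, 50]),
  ([16, 50], [16, 18, 50]),
  ([48], [16, 48, 50]),
  ([32, 50], [32, 34, 50]),
  ([32, 48], [32, 48, 50])]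

/-- shelling -/
def S10 : List (List ℕ × List ℕ) :=
  [([], [1, 9, 25]),
  ([17], [1, 17, 25]),
  ([8], [8, 9, 25]),
  ([24], [8, 24, 25]),
  ([16], [16, 17, 25]),
  ([16, 24], [16, 24, 25]),
  ([21], [1, 17, 21]),
  ([5], [1, 5, 21]),
  ([4], [4, 5, 21]),
  ([20], [4, 20, 21]),
  ([16, 21], [16, 17, 21]),
  ([16, 20], [16, 20, 21]),
  ([22], [4, 20, 22]),
  ([6], [4, 6, 22]),
  ([2], [2, 6, 22]),
  ([18], [2, 18, 22]),
  ([16, 22], [16, 20, 22]),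
  ([16, 18], [16, 18, 22]),
  ([37], [1, 5, 37]),
  ([33], [1, 33, 37]),
  ([4, 37], [4, 5, 37]),
  ([36], [4, 36, 37]),
  ([32], [32, 33, 37]),
  ([32, 36], [32, 36, 37]),
  ([41], [1, 9, 41]),
  ([33, 41], [1, 33, 41]),
  ([8, 41], [8, 9, 41]),
  ([40], [8, 40, 41]),
  ([32, 41], [32, 33, 41]),
  ([32, 40], [32, 40, 41]),
  ([44], [4, 36, 44]),
  ([12], [4, 12, 44]),
  ([32, 44], [32, 36, 44]),
  ([40, 44], [32, 40, 44]),
  ([8, 44], [8, 40, 44]),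
  ([8, 12], [8, 12, 44]),
  ([14], [2, 6, 14]),
  ([10], [2, 10, 14]),
  ([4, 14], [4, 6, 14]),
  ([12, 14], [4, 12, 14]),
  ([8, 14], [8, 12, 14]),
  ([8, 10], [8, 10, 14]),
  ([42], [2, 10, 42]),
  ([34], [2, 34, 42]),
  ([8, 42], [8, 10, 42]),
  ([40, 42], [8, 40, 42]),
  ([32, 42], [32, 40, 42]),
  ([32, 34], [32, 34, 42]),
  ([56], [8, 24, 56]),
  ([40, 56], [8, 40, 56]),
  ([16, 56], [16, 24, 56]),
  ([48], [16, 48, 56]),
  ([32, 56], [32, 40, 56]),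
  ([32, 48], [32, 48, 56])]

set_option maxRecDepth 100000

lemma good0 : Good T0 S0 := by
  decide +kernel

lemma good1 : Good (T0.erase 25) S1 := by
  decide +kernel

lemma good2 : Good (T0.erase 21) S2 := by
  decide +kernel

lemma good3 : Good (T0.erase 14) S3 := by
  decide +kernel

lemma good4 : Good (T0.erase 22) S4 := by
  decide +kernel

lemma good5 : Good (T0.erase 37) S5 := by
  decide +kernel

lemma good6 : Good (T0.erase 44) S6 := by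
  decide +kernel

lemma good7 : Good (T0.erase 41) S7 := by
  decide +kernel

lemma good8 : Good (T0.erase 42) S8 := by
  decide +kernel

lemma good9 : Good (T0.erase 56) S9 := by
  decide +kernel

lemma good10 : Good (T0.erase 50) S10 := by
  decide +kernel

end Pool.Agent.Q164.SdInt
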