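import Mathlib
import Pool.Agent.Helper611.ZBase

/-!
# Shellable complexes satisfy Reisner's criterion
-/

set_option autoImplicit false

namespace Pool.Agent.Q164.SdInt

open Finset

/-- A finite simplicial complex with vertices in `V`; the empty face is a face. -/
structure SCx (V : Type) where
  faces : Finset (Finset V)
  empty_mem : ∅ ∈ faces
  down : ∀ F ∈ faces, ∀ G, G ⊆ F → G ∈ faces

section complexes
variable {V : Type} [Fintype V] [LinearOrder V]

/-- The largest number of vertices of a face, that is, the dimension plus one. -/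
def size (Δ : SCx V) : ℕ := Δ.faces.sup Finset.card

/-- The number of faces with `j` vertices, `f_{j-1}`. -/
def numFaces (Δ : SCx V) (j : ℕ) : ℕ := (Δ.faces.filter fun F => F.card = j).card

/-- The polynomial `∑_{i ≤ d} f_{i-1} x^i (1-x)^{d-i}`. -/
noncomputable def hPoly (d : ℕ) (Δ : SCx V) : Polynomial ℝ :=
  ∑ i ∈ Finset.range (d + 1),
    Polynomial.C (numFaces Δ i : ℝ) * Polynomial.X ^ i * (1 - Polynomial.X) ^ (d - i)

/-- The link of a face. -/
def link (Δ : SCx V) (F : Finset V) (hF : F ∈ Δ.faces) : SCx V where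
  faces := Δ.faces.filter fun G => Disjoint G F ∧ G ∪ F ∈ Δ.faces
  empty_mem := by
    rw [Finset.mem_filter, Finset.empty_union]
    exact ⟨Δ.empty_mem, Finset.disjoint_empty_left _, hF⟩
  down := by
    intro G hG H hH
    rw [Finset.mem_filter] at hG ⊢
    exact ⟨Δ.down G hG.1 H hH, Finset.disjoint_of_subset_left hH hG.2.1,
      Δ.down _ hG.2.2 _ (Finset.union_subset_union_left hH)⟩

/-- The boundary of a chain with coefficients in `k`: a chain assigns a coefficient to each
set of vertices, and the coefficient of `G` in the boundary is the sum over the vertices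
`x ∉ G` of `(-1)^(number of vertices of G before x)` times the coefficient of `G ∪ {x}`. -/
def boundary (k : Type) [Field k] (c : Finset V → k) (G : Finset V) : k :=
  ∑ x ∈ Gᶜ, ((-1 : k) ^ (G.filter (· < x)).card) * c (insert x G)

/-- Chains of `Γ` on the faces with `j` vertices. -/
def IsChain (k : Type) [Field k] (Γ : SCx V) (j : ℕ) (c : Finset V → k) : Prop :=
  ∀ G, c G ≠ 0 → G ∈ Γ.faces ∧ G.card = j

/-- The reduced homology of `Γ` over `k` vanishes in dimension `j - 1`: every cycle on the faces
with `j` vertices is a boundary. -/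
def HomologyVanishes (k : Type) [Field k] (Γ : SCx V) (j : ℕ) : Prop :=
  ∀ c : Finset V → k, IsChain k Γ j c → boundary k c = 0 →
    ∃ b : Finset V → k, IsChain k Γ (j + 1) b ∧ boundary k b = c

/-- Cohen–Macaulay simplicial complexes over `k` (Reisner's criterion): the reduced homology of the
link of each face vanishes below the dimension of the link. -/
def IsCM (k : Type) [Field k] (Γ : SCx V) : Prop :=
  ∀ (F : Finset V) (hF : F ∈ Γ.faces) (j : ℕ), j < size (link Γ F hF) →
    HomologyVanishes k (link Γ F hF) j

end complexes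

section proof
variable {V : Type} [Fintype V] [LinearOrder V] {k : Type} [Field k]

open Pool.Agent.Helper611.ZBase

lemma boundary_eq (c : Finset V → k) : boundary k c = bd c := by
  funext G
  unfold boundary bd
  refine Finset.sum_congr rfl fun x _ => ?_
  rw [zsmul_eq_mul]
  unfold sgn
  push_cast
  rfl

/-- The stage `m` of the link of `σ` in the union of the simplices `F i`. -/
def St (F : ℕ → Finset V) (σ : Finset V) (m : ℕ) (G : Finset V) : Prop :=
  Disjoint G σ ∧ ∃ i < m, G ∪ σ ⊆ F i

lemma stage (d : ℕ) (R F : ℕ → Finset V) (N : ℕ) (h1 : ∀ i < N, R i ⊆ F i)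
    (h1' : ∀ i < N, (F i).card = d) (h2 : ∀ i < N, ∀ j < i, ¬ R i ⊆ F j)
    (h3 : ∀ i < N, ∀ r ∈ R i, ∃ j < i, (F i).erase r ⊆ F j) (σ : Finset V) (j : ℕ)
    (hj : j + σ.card < d) : ∀ m ≤ N, ∀ c : Finset V → k, (∀ G, c G ≠ 0 → St F σ m G ∧ G.card = j) →
      bd c = 0 → ∃ b : Finset V → k, (∀ G, b G ≠ 0 → St F σ m G ∧ G.card = j + 1) ∧ bd b = c := by
  classical
  intro m
  induction m with
  | zero =>
    intro _ c hc _
    refine ⟨0, fun G hG => absurd rfl hG, ?_⟩
    funext G
    rw [bd_zero]
    by_contra h
    obtain ⟨⟨_, i, hi, _⟩, _⟩ := hc G (Ne.symm h)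
    omega
  | succ m ih =>
    intro hm c hc hbd
    have hmN : m < N := by omega
    -- the dichotomy for faces
    have hold : ∀ G, St F σ (m + 1) G → ¬ (R m ⊆ G ∪ σ ∧ G ∪ σ ⊆ F m) → St F σ m G := by
      rintro G ⟨hd, i, hi, hG⟩ hn
      rcases Nat.lt_or_ge i m with h | h
      · exact ⟨hd, i, h, hG⟩
      · have : i = m := by omega
        subst this
        have hR : ¬ R i ⊆ G ∪ σ := fun h => hn ⟨h, hG⟩
        rw [Finset.not_subset] at hR
        obtain ⟨r, hr, hrG⟩ := hR
        obtain ⟨l, hl, hFl⟩ := h3 i hmN r hr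
        refine ⟨hd, l, hl, ?_⟩
        intro x hx
        apply hFl
        rw [Finset.mem_erase]
        exact ⟨fun h => hrG (h ▸ hx), hG hx⟩
    have hnew : ∀ G, R m ⊆ G ∪ σ → ¬ St F σ m G := by
      rintro G hR ⟨_, i, hi, hG⟩
      exact h2 m hmN i hi (hR.trans hG)
    have hmono : ∀ G, St F σ m G → St F σ (m + 1) G := by
      rintro G ⟨hd, i, hi, hG⟩
      exact ⟨hd, i, by omega, hG⟩
    by_cases hσ : σ ⊆ F m
    swap
    · have h0 : ∀ G, St F σ (m + 1) G → St F σ m G := by
        intro G hG
        refine hold G hG fun h => hσ ?_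
        exact Finset.subset_union_right.trans h.2
      obtain ⟨b, hb, hb'⟩ := ih (by omega) c (fun G hG => ⟨h0 G (hc G hG).1, (hc G hG).2⟩) hbd
      exact ⟨b, fun G hG => ⟨hmono G (hb G hG).1, (hb G hG).2⟩, hb'⟩
    by_cases hs : ∃ s ∈ F m, s ∉ σ ∪ R m
    swap
    · push Not at hs
      have h0 : ∀ G, c G ≠ 0 → St F σ m G := by
        intro G hG
        refine hold G (hc G hG).1 fun h => ?_
        have h5 : F m ⊆ G ∪ σ := by
          intro x hx
          have := hs x hx
          rw [Finset.mem_union] at this
          rcases this with h6 | h6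
          · exact Finset.mem_union_right _ h6
          · exact h.1 h6
        have h6 := Finset.card_le_card h5
        rw [h1' m hmN] at h6
        have h7 := Finset.card_union_le G σ
        rw [(hc G hG).2] at h7
        omega
      obtain ⟨b, hb, hb'⟩ := ih (by omega) c (fun G hG => ⟨h0 G hG, (hc G hG).2⟩) hbd
      exact ⟨b, fun G hG => ⟨hmono G (hb G hG).1, (hb G hG).2⟩, hb'⟩
    obtain ⟨s, hsF, hsn⟩ := hs
    rw [Finset.mem_union, not_or] at hsn
    obtain ⟨hsσ, hsR⟩ := hsn
    let e : Finset V → k := fun G =>
      if s ∈ G ∧ R m ⊆ G ∪ σ ∧ G ∪ σ ⊆ F m ∧ Disjoint G σ then (sgn s (G.erase s) : ℤ) • c (G.erase s)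
      else 0
    have he : ∀ G, e G ≠ 0 → (s ∈ G ∧ R m ⊆ G ∪ σ ∧ G ∪ σ ⊆ F m ∧ Disjoint G σ) ∧
        c (G.erase s) ≠ 0 := by
      intro G hG
      simp only [e] at hG
      split_ifs at hG with h
      · refine ⟨h, fun h0 => hG ?_⟩
        rw [h0, smul_zero]
      · exact absurd rfl hG
    have heSt : ∀ G, e G ≠ 0 → St F σ (m + 1) G ∧ G.card = j + 1 := by
      intro G hG
      obtain ⟨⟨a1, a2, a3, a4⟩, a5⟩ := he G hG
      refine ⟨⟨a4, m, by omega, a3⟩, ?_⟩
      have := (hc _ a5).2
      rw [Finset.card_erase_of_mem a1] at this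
      have h8 : 0 < G.card := Finset.card_pos.2 ⟨s, a1⟩
      omega
    let c' : Finset V → k := c - bd e
    have hc'bd : bd c' = 0 := by
      funext G
      simp only [c']
      rw [bd_sub, bd_bd, hbd, sub_zero]
    have hSd : ∀ (M : ℕ) (G H : Finset V), St F σ M G → H ⊆ G → St F σ M H := by
      rintro M G H ⟨a1, i, a2, a3⟩ hH
      exact ⟨Finset.disjoint_of_subset_left hH a1, i, a2,
        (Finset.union_subset_union_left hH).trans a3⟩
    have hc'St : ∀ G, c' G ≠ 0 → St F σ (m + 1) G ∧ G.card = j := by
      intro G hG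
      by_cases h0 : c G = 0
      · have h9 : bd e G ≠ 0 := by
          intro h9
          apply hG
          simp only [c', Pi.sub_apply, h0, h9, sub_zero]
        unfold bd at h9
        obtain ⟨x, hx, hx'⟩ := Finset.exists_ne_zero_of_sum_ne_zero h9
        have h10 : e (insert x G) ≠ 0 := by
          intro h10
          apply hx'
          rw [h10, smul_zero]
        obtain ⟨a1, a2⟩ := heSt _ h10
        rw [Finset.mem_compl] at hx
        rw [Finset.card_insert_of_notMem hx] at a2
        exact ⟨hSd _ _ _ a1 (Finset.subset_insert _ _), by omega⟩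
      · exact hc G h0
    have key1 : ∀ G, s ∉ G → R m ⊆ G ∪ σ → G ∪ σ ⊆ F m → Disjoint G σ → c' G = 0 := by
      intro G hsG a1 a2 a3
      have h11 : bd e G = c G := by
        unfold bd
        rw [Finset.sum_eq_single s]
        · have h12 : e (insert s G) = (sgn s G : ℤ) • c G := by
            simp only [e]
            rw [if_pos, Finset.erase_insert hsG]
            refine ⟨Finset.mem_insert_self _ _, ?_, ?_, ?_⟩
            · exact a1.trans (Finset.union_subset_union_left (Finset.subset_insert _ _))
            · rw [Finset.insert_union]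
              exact Finset.insert_subset hsF a2
            · rw [Finset.disjoint_insert_left]
              exact ⟨hsσ, a3⟩
          rw [h12, smul_smul, sgn_mul_self, one_smul]
        · intro x _ hxs
          have h12 : e (insert x G) = 0 := by
            by_contra h13
            have := (he _ h13).1.1
            rw [Finset.mem_insert] at this
            rcases this with h14 | h14
            · exact hxs h14.symm
            · exact hsG h14
          rw [h12, smul_zero]
        · intro h12
          exact absurd (Finset.mem_compl.2 hsG) h12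
      simp only [c', Pi.sub_apply, h11, sub_self]
    have key2 : ∀ G, R m ⊆ G ∪ σ → c' G = 0 := by
      intro G hRG
      by_contra hne
      have a0 := (hc'St G hne).1
      have a2 : G ∪ σ ⊆ F m := by
        by_contra h14
        exact hnew G hRG (hold G a0 fun h => h14 h.2)
      by_cases hsG : s ∈ G
      · have h15 : bd c' (G.erase s) = 0 := by rw [hc'bd]; rfl
        unfold bd at h15
        have hRG0 : R m ⊆ G.erase s ∪ σ := by
          intro x hx
          have := hRG hx
          rw [Finset.mem_union] at this ⊢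
          rcases this with h16 | h16
          · left
            rw [Finset.mem_erase]
            exact ⟨fun h => hsR (h ▸ hx), h16⟩
          · exact Or.inr h16
        rw [Finset.sum_eq_single s] at h15
        · rw [Finset.insert_erase hsG] at h15
          have h17 : (sgn s (G.erase s) : ℤ) • ((sgn s (G.erase s) : ℤ) • c' G) = 0 := by
            rw [h15, smul_zero]
          rw [smul_smul, sgn_mul_self, one_smul] at h17
          exact hne h17
        · intro x hx hxs
          rw [Finset.mem_compl] at hx
          have h18 : c' (insert x (G.erase s)) = 0 := by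
            by_contra h19
            have b0 := (hc'St _ h19).1
            have hR' : R m ⊆ insert x (G.erase s) ∪ σ :=
              hRG0.trans (Finset.union_subset_union_left (Finset.subset_insert _ _))
            have b2 : insert x (G.erase s) ∪ σ ⊆ F m := by
              by_contra h14
              exact hnew _ hR' (hold _ b0 fun h => h14 h.2)
            apply h19
            apply key1 _ _ hR' b2 b0.1
            rw [Finset.mem_insert, not_or]
            exact ⟨fun h => hxs h.symm, Finset.notMem_erase _ _⟩
          rw [h18, smul_zero]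
        · intro h20
          exact absurd (Finset.mem_compl.2 (Finset.notMem_erase _ _)) h20
      · exact hne (key1 G hsG hRG a2 a0.1)
    have hc'm : ∀ G, c' G ≠ 0 → St F σ m G ∧ G.card = j := by
      intro G hG
      refine ⟨hold G (hc'St G hG).1 fun h => hG (key2 G h.1), (hc'St G hG).2⟩
    obtain ⟨b, hb, hb'⟩ := ih (by omega) c' hc'm hc'bd
    refine ⟨b + e, ?_, ?_⟩
    · intro G hG
      by_cases h0 : b G = 0
      · have : e G ≠ 0 := by
          intro h21
          apply hG
          rw [Pi.add_apply, h0, h21, add_zero]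
        exact heSt G this
      · exact ⟨hmono G (hb G h0).1, (hb G h0).2⟩
    · funext G
      rw [bd_add, hb']
      simp only [c', Pi.sub_apply, sub_add_cancel]

/-- Shellable complexes (partitioned into the intervals `[R i, F i]`) are Cohen–Macaulay. -/
theorem cm_of_shelling (Γ : SCx V) (d : ℕ) (R F : ℕ → Finset V) (N : ℕ) (h1 : ∀ i < N, R i ⊆ F i)
    (h1' : ∀ i < N, (F i).card = d) (h2 : ∀ i < N, ∀ j < i, ¬ R i ⊆ F j)
    (h3 : ∀ i < N, ∀ r ∈ R i, ∃ j < i, (F i).erase r ⊆ F j)
    (h4 : ∀ G, G ∈ Γ.faces ↔ ∃ i < N, G ⊆ F i) : IsCM k Γ := by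
  classical
  intro σ hσ j hj c hc hbd
  have hlink : ∀ G, G ∈ (link Γ σ hσ).faces ↔ St F σ N G := by
    intro G
    unfold link St
    rw [Finset.mem_filter]
    constructor
    · rintro ⟨_, a1, a2⟩
      rw [h4] at a2
      exact ⟨a1, a2⟩
    · rintro ⟨a1, a2⟩
      refine ⟨?_, a1, (h4 _).2 a2⟩
      obtain ⟨i, hi, hG⟩ := a2
      exact (h4 _).2 ⟨i, hi, Finset.subset_union_left.trans hG⟩
  have hsize : size (link Γ σ hσ) + σ.card ≤ d := by
    have h5 : ∀ G ∈ (link Γ σ hσ).faces, G.card + σ.card ≤ d := by
      intro G hG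
      rw [hlink] at hG
      obtain ⟨a1, i, hi, a2⟩ := hG
      rw [← Finset.card_union_of_disjoint a1, ← h1' i hi]
      exact Finset.card_le_card a2
    have h6 : size (link Γ σ hσ) ≤ d - σ.card := by
      unfold size
      apply Finset.sup_le
      intro G hG
      have := h5 G hG
      omega
    have h7 := h5 ∅ (link Γ σ hσ).empty_mem
    rw [Finset.card_empty] at h7
    omega
  rw [boundary_eq] at hbd
  obtain ⟨b, hb, hb'⟩ := stage (k := k) d R F N h1 h1' h2 h3 σ j (by omega) N le_rfl c
    (fun G hG => ⟨(hlink G).1 (hc G hG).1, (hc G hG).2⟩) hbd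
  refine ⟨b, fun G hG => ⟨(hlink G).2 (hb G hG).1, (hb G hG).2⟩, ?_⟩
  rw [boundary_eq]
  exact hb'

end proof

end Pool.Agent.Q164.SdInt
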